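import Mathlib

/-!
# The orientation tournament game: definitions (MP_7dd320)

`Or(T, n)` is played on the edges of the complete graph on `Fin n`.  A position is the finite set `A` of
arcs directed so far.
-/

namespace Pool.Agent.helper11.OG

open Finset

/-- A tournament on `Fin k`. -/
def IsTournament {k : ℕ} (T : Fin k → Fin k → Prop) : Prop :=
  (∀ i, ¬ T i i) ∧ ∀ i j, i ≠ j → (T i j ↔ ¬ T j i)

/-- The arc `a` is a legal move in the position `A`: `a` is not a loop and its edge is undirected. -/
def Free {n : ℕ} (A : Finset (Fin n × Fin n)) (a : Fin n × Fin n) : Prop :=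
  a.1 ≠ a.2 ∧ a ∉ A ∧ a.swap ∉ A

/-- The digraph `A` contains a copy of `T`. -/
def HasCopy {n k : ℕ} (T : Fin k → Fin k → Prop) (A : Finset (Fin n × Fin n)) : Prop :=
  ∃ c : Fin k → Fin n, Function.Injective c ∧ ∀ i j, T i j → (c i, c j) ∈ A

/-- `BWins T t A`: OBreaker wins the game with target `T` from the position `A`; it is OMaker's turn if
`t = true` and OBreaker's turn if `t = false`.  The game ends when no edge is undirected, and then
OBreaker wins if there is no copy of `T`. -/
inductive BWins {n k : ℕ} (T : Fin k → Fin k → Prop) : Bool → Finset (Fin n × Fin n) → Prop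
  | finish (t : Bool) (A : Finset (Fin n × Fin n)) (h : ∀ a, ¬ Free A a) (hc : ¬ HasCopy T A) :
      BWins T t A
  | maker (A : Finset (Fin n × Fin n)) (h : ∃ a, Free A a)
      (hw : ∀ a, Free A a → BWins T false (insert a A)) : BWins T true A
  | breaker (A : Finset (Fin n × Fin n)) (a : Fin n × Fin n) (h : Free A a)
      (hw : BWins T true (insert a A)) : BWins T false A

/-- OBreaker has a winning strategy in `Or(T, n)`; OMaker moves first. -/
def OBreakerWins {k : ℕ} (T : Fin k → Fin k → Prop) (n : ℕ) : Prop :=
  BWins T true (∅ : Finset (Fin n × Fin n))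

end Pool.Agent.helper11.OG
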