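import Pool.Agent.helper11.OG.Round

/-! Absorption of the bad placements; the potential does not increase in a round. -/

namespace Pool.Agent.helper11.OG

open Finset

variable {n k : ℕ}

/-- An edge different from `{b.1, b.2}` has an end outside of it. -/
theorem exists_end {a b : Fin n × Fin n} (ha : a.1 ≠ a.2) (h1 : a ≠ b) (h2 : a ≠ b.swap) :
    ∃ x, (a.1 = x ∨ a.2 = x) ∧ b.1 ≠ x ∧ b.2 ≠ x := by
  by_contra hcon
  push Not at hcon
  have u1 := hcon a.1 (Or.inl rfl)
  have u2 := hcon a.2 (Or.inr rfl)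
  by_cases h3 : b.1 = a.1
  · by_cases h4 : b.1 = a.2
    · exact ha (h3.symm.trans h4)
    · exact h1 (Prod.ext h3.symm (u2 h4).symm)
  · have h4 := u1 h3
    by_cases h5 : b.1 = a.2
    · exact h2 (Prod.ext h4.symm h5.symm)
    · exact ha (h4.symm.trans (u2 h5))

/-- The bad placements: both arcs are inside and one of them is early. -/
def Bad (l : ℕ) (h : List (Fin n × Fin n)) (e f : Fin n × Fin n)
    (o : Fin k → Option (Fin n)) : Prop :=
  Inj o ∧ ins (im o) e ∧ ins (im o) f ∧ (early l h (im o) e ∨ early l h (im o) f)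

/-- exactly one of the two arcs is inside -/
def One (e f : Fin n × Fin n) (o : Fin k → Option (Fin n)) : Prop :=
  ¬ (ins (im o) e ∧ ins (im o) f) ∧ (ins (im o) e ∨ ins (im o) f)

/-- A bad placement has a role whose vertex has small degree and whose removal leaves exactly one
of the two arcs. -/
theorem bad_role {l : ℕ} {h : List (Fin n × Fin n)} {e f : Fin n × Fin n} (he : e.1 ≠ e.2)
    (hf : f.1 ≠ f.2) (h1 : e ≠ f) (h2 : e ≠ f.swap) {o : Fin k → Option (Fin n)}
    (ho : Bad l h e f o) : ∃ i x, o i = some x ∧ deg h (im o) x < l ∧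
      (e.1 = x ∨ e.2 = x ∨ f.1 = x ∨ f.2 = x) ∧ One e f (rem o i) := by
  obtain ⟨hi, he', hf', h3⟩ := ho
  have h2' : f ≠ e.swap := by
    rintro rfl
    exact h2 (by simp)
  rcases h3 with h3 | h3
  · obtain ⟨x, hx, hx1, hx2⟩ := exists_end he h1 h2
    have hxS : x ∈ im o := by
      rcases hx with rfl | rfl
      · exact he'.1
      · exact he'.2
    obtain ⟨i, hix⟩ := mem_im.1 hxS
    have hne : ¬ ins (im (rem o i)) e := by
      rw [im_rem hi hix]
      rintro ⟨u1, u2⟩
      rcases hx with rfl | rfl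
      · exact (mem_erase.1 u1).1 rfl
      · exact (mem_erase.1 u2).1 rfl
    have hfi : ins (im (rem o i)) f := by
      rw [im_rem hi hix]
      exact ⟨mem_erase.2 ⟨hx1, hf'.1⟩, mem_erase.2 ⟨hx2, hf'.2⟩⟩
    refine ⟨i, x, hix, ?_, ?_, fun u => hne u.1, Or.inr hfi⟩
    · rcases hx with rfl | rfl
      · exact h3.1
      · exact h3.2
    · rcases hx with hx | hx
      · exact Or.inl hx
      · exact Or.inr (Or.inl hx)
  · obtain ⟨x, hx, hx1, hx2⟩ := exists_end hf (Ne.symm h1) h2'
    have hxS : x ∈ im o := by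
      rcases hx with rfl | rfl
      · exact hf'.1
      · exact hf'.2
    obtain ⟨i, hix⟩ := mem_im.1 hxS
    have hne : ¬ ins (im (rem o i)) f := by
      rw [im_rem hi hix]
      rintro ⟨u1, u2⟩
      rcases hx with rfl | rfl
      · exact (mem_erase.1 u1).1 rfl
      · exact (mem_erase.1 u2).1 rfl
    have hfi : ins (im (rem o i)) e := by
      rw [im_rem hi hix]
      exact ⟨mem_erase.2 ⟨hx1, he'.1⟩, mem_erase.2 ⟨hx2, he'.2⟩⟩
    refine ⟨i, x, hix, ?_, ?_, fun u => hne u.2, Or.inl hfi⟩
    · rcases hx with rfl | rfl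
      · exact h3.1
      · exact h3.2
    · rcases hx with hx | hx
      · exact Or.inr (Or.inr (Or.inl hx))
      · exact Or.inr (Or.inr (Or.inr hx))

open scoped Classical in
/-- The bad placements weigh little against the placements with exactly one of the arcs. -/
theorem absorb (T : Fin k → Fin k → Prop) {l : ℕ} {q : ℝ} (hq : Real.sqrt 2 ≤ q) (hq2 : q ≤ 2)
    {h : List (Fin n × Fin n)} {e f : Fin n × Fin n} (he : e.1 ≠ e.2)
    (hf : f.1 ≠ f.2) (h1 : e ≠ f) (h2 : e ≠ f.swap) :
    n * ∑ o ∈ univ.filter (fun o : Fin k → Option (Fin n) => Bad l h e f o), w T l q h o ≤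
      2 ^ l * k * ∑ o ∈ univ.filter (fun o : Fin k → Option (Fin n) => One e f o),
        w T l q h o := by
  have h20 : (0 : ℝ) < Real.sqrt 2 := by positivity
  have hq0 : 0 < q := h20.trans_le hq
  set B := univ.filter (fun o : Fin k → Option (Fin n) => Bad l h e f o) with hB
  set O := univ.filter (fun o : Fin k → Option (Fin n) => One e f o) with hO
  have key : ∀ o ∈ B, ∃ i x, o i = some x ∧ deg h (im o) x < l ∧
      (e.1 = x ∨ e.2 = x ∨ f.1 = x ∨ f.2 = x) ∧ One e f (rem o i) := by
    intro o ho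
    rw [hB, mem_filter] at ho
    exact bad_role he hf h1 h2 ho.2
  rcases B.eq_empty_or_nonempty with hBe | ⟨o₀, ho₀⟩
  · rw [hBe, sum_empty, mul_zero]
    exact mul_nonneg (by positivity) (sum_nonneg fun o _ => w_nonneg hq0 _ _)
  obtain ⟨i₀, x₀, -⟩ := key o₀ ho₀
  have : Nonempty (Fin k) := ⟨i₀⟩
  have : Nonempty (Fin n) := ⟨x₀⟩
  choose! I X hI hX hE hR using key
  set φ : (Fin k → Option (Fin n)) → Fin k × (Fin k → Option (Fin n)) :=
    fun o => (I o, rem o (I o)) with hφ
  have hinj : Set.InjOn φ B := by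
    intro o ho o' ho' hoo
    rw [hφ] at hoo
    simp only [Prod.mk.injEq] at hoo
    obtain ⟨e1, e2⟩ := hoo
    have ho1 := ho
    have ho1' := ho'
    rw [mem_coe, hB, mem_filter] at ho1 ho1'
    obtain ⟨-, hi, hie, hif, -⟩ := ho1
    obtain ⟨-, hi', hie', hif', -⟩ := ho1'
    have hx := hI o ho
    have hx' := hI o' ho'
    have e3 : (im o).erase (X o) = (im o').erase (X o') := by
      rw [← im_rem hi hx, ← im_rem hi' hx', e2]
    have e4 : X o ∈ im o' := by
      rcases hE o ho with u | u | u | u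
      · rw [← u]; exact hie'.1
      · rw [← u]; exact hie'.2
      · rw [← u]; exact hif'.1
      · rw [← u]; exact hif'.2
    have e5 : X o = X o' := by
      by_contra hne
      have : X o ∈ (im o').erase (X o') := mem_erase.2 ⟨hne, e4⟩
      rw [← e3] at this
      exact (mem_erase.1 this).1 rfl
    funext j
    by_cases hj : j = I o
    · rw [hj, hx, e5, ← hx', e1]
    · rw [← rem_of_ne o hj, e2, rem_of_ne o' (by rw [← e1]; exact hj)]
  calc (n : ℝ) * ∑ o ∈ B, w T l q h o = ∑ o ∈ B, n * w T l q h o := by rw [mul_sum]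
    _ ≤ ∑ o ∈ B, 2 ^ l * w T l q h (φ o).2 := by
        apply sum_le_sum
        intro o ho
        refine (w_rem hq hq2 (hI o ho)).trans ?_
        apply mul_le_mul_of_nonneg_right _ (w_nonneg hq0 _ _)
        exact pow_le_pow_right₀ (by norm_num) (hX o ho).le
    _ = ∑ p ∈ B.image φ, 2 ^ l * w T l q h p.2 := by
        rw [sum_image hinj]
    _ ≤ ∑ p ∈ (univ : Finset (Fin k)) ×ˢ O, 2 ^ l * w T l q h p.2 := by
        apply sum_le_sum_of_subset_of_nonneg
        · intro p hp
          rw [mem_image] at hp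
          obtain ⟨o, ho, rfl⟩ := hp
          rw [mem_product]
          refine ⟨mem_univ _, ?_⟩
          rw [hO, mem_filter]
          exact ⟨mem_univ _, hR o ho⟩
        · intro p _ _
          exact mul_nonneg (by positivity) (w_nonneg hq0 _ _)
    _ = 2 ^ l * k * ∑ o ∈ O, w T l q h o := by
        rw [sum_product]
        simp only
        rw [sum_const, card_univ, Fintype.card_fin, nsmul_eq_mul, ← mul_sum]
        ring

/-- The correction terms sum up to something nonpositive. -/
theorem cr_sum (T : Fin k → Fin k → Prop) {l : ℕ} {ε : ℝ} (h0 : 0 ≤ ε) (h1 : ε ≤ 1 / 20)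
    (hn : 0 < n) (hl : 3 * (k : ℝ) * 2 ^ l ≤ ε * n)
    {h : List (Fin n × Fin n)} {e f : Fin n × Fin n} (he : e.1 ≠ e.2)
    (hf : f.1 ≠ f.2) (hef : e ≠ f) (hef' : e ≠ f.swap) :
    ∑ o : Fin k → Option (Fin n), w T l (2 - 2 * ε) h o * cr l ε h o e f ≤ 0 := by
  classical
  have hs := sqrt2_le
  have hq : Real.sqrt 2 ≤ 2 - 2 * ε := by linarith
  have hq2 : 2 - 2 * ε ≤ 2 := by linarith
  have h20 : (0 : ℝ) < Real.sqrt 2 := by positivity
  have hq0 : 0 < 2 - 2 * ε := h20.trans_le hq
  have hA := absorb (k := k) T (l := l) hq hq2 (h := h) he hf hef hef'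
  have e1 : ∑ o : Fin k → Option (Fin n), w T l (2 - 2 * ε) h o * cr l ε h o e f =
      3 * ∑ o ∈ univ.filter (fun o : Fin k → Option (Fin n) => Bad l h e f o),
        w T l (2 - 2 * ε) h o
      - ε * ∑ o ∈ univ.filter (fun o : Fin k → Option (Fin n) => One e f o),
        w T l (2 - 2 * ε) h o := by
    rw [mul_sum, mul_sum, sum_filter, sum_filter, ← sum_sub_distrib]
    apply sum_congr rfl
    intro o _
    by_cases ho : Inj o
    · by_cases a1 : ins (im o) e ∧ ins (im o) f
      · have b1 : ¬ One e f o := fun u => u.1 a1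
        rw [if_neg b1, cr, if_pos a1]
        by_cases a2 : early l h (im o) e ∨ early l h (im o) f
        · have b2 : Bad l h e f o := ⟨ho, a1.1, a1.2, a2⟩
          rw [if_pos a2, if_pos b2]
          ring
        · have b2 : ¬ Bad l h e f o := fun u => a2 u.2.2.2
          rw [if_neg a2, if_neg b2]
          ring
      · have b1 : ¬ Bad l h e f o := fun u => a1 ⟨u.2.1, u.2.2.1⟩
        rw [if_neg b1, cr, if_neg a1]
        by_cases a3 : ins (im o) e ∨ ins (im o) f
        · have b2 : One e f o := ⟨a1, a3⟩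
          rw [if_pos a3, if_pos b2]
          ring
        · have b2 : ¬ One e f o := fun u => a3 u.2
          rw [if_neg a3, if_neg b2]
          ring
    · have hz : w T l (2 - 2 * ε) h o = 0 := by
        unfold w
        rw [if_neg (fun u => ho u.1)]
      rw [hz]
      split_ifs <;> ring
  rw [e1]
  set SB := ∑ o ∈ univ.filter (fun o : Fin k → Option (Fin n) => Bad l h e f o),
    w T l (2 - 2 * ε) h o with hSB
  set SO := ∑ o ∈ univ.filter (fun o : Fin k → Option (Fin n) => One e f o),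
    w T l (2 - 2 * ε) h o with hSO
  have hO : 0 ≤ SO := sum_nonneg fun o _ => w_nonneg hq0 _ _
  have hn' : (0 : ℝ) < n := by exact_mod_cast hn
  have e2 : n * (3 * SB) ≤ n * (ε * SO) := by
    calc (n : ℝ) * (3 * SB) = 3 * (n * SB) := by ring
      _ ≤ 3 * (2 ^ l * k * SO) := by linarith
      _ = (3 * (k : ℝ) * 2 ^ l) * SO := by ring
      _ ≤ (ε * n) * SO := mul_le_mul_of_nonneg_right hl hO
      _ = n * (ε * SO) := by ring
  have e3 := le_of_mul_le_mul_left e2 hn'
  linarith

/-- The potential does not increase in a round (OBreaker plays `f`, OMaker answers `e`). -/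
theorem round_le {T : Fin k → Fin k → Prop} (hT : IsTournament T) {l : ℕ} {ε : ℝ} (h0 : 0 ≤ ε)
    (h1 : ε ≤ 1 / 20) (hn : 0 < n) (hl : 3 * (k : ℝ) * 2 ^ l ≤ ε * n)
    {h : List (Fin n × Fin n)} {e f : Fin n × Fin n} (he : e.1 ≠ e.2)
    (hf : f.1 ≠ f.2) (hef : e ≠ f) (hef' : e ≠ f.swap)
    (hmin : SS T l ε h f ≤ SS T l ε h e.swap) :
    Phi T l (2 - 2 * ε) (e :: f :: h) ≤ Phi T l (2 - 2 * ε) h := by
  have hc := cr_sum T h0 h1 hn hl (h := h) he hf hef hef'
  rw [SS_swap hT l ε h he] at hmin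
  unfold SS at hmin
  unfold Phi
  calc ∑ o : Fin k → Option (Fin n), w T l (2 - 2 * ε) (e :: f :: h) o
      ≤ ∑ o : Fin k → Option (Fin n), w T l (2 - 2 * ε) h o *
          (1 + sc T l ε h o e + sc T l ε h o f + cr l ε h o e f) :=
        sum_le_sum fun o _ => obj_two h0 h1 h o e f
    _ = ∑ o : Fin k → Option (Fin n), w T l (2 - 2 * ε) h o +
        ∑ o : Fin k → Option (Fin n), sc T l ε h o e * w T l (2 - 2 * ε) h o +
        ∑ o : Fin k → Option (Fin n), sc T l ε h o f * w T l (2 - 2 * ε) h o +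
        ∑ o : Fin k → Option (Fin n), w T l (2 - 2 * ε) h o * cr l ε h o e f := by
        rw [← sum_add_distrib, ← sum_add_distrib, ← sum_add_distrib]
        apply sum_congr rfl
        intro o _
        ring
    _ ≤ _ := by linarith

/-- The last move of OBreaker. -/
theorem last_le {T : Fin k → Fin k → Prop} (hT : IsTournament T) {l : ℕ} {ε : ℝ} (h0 : 0 ≤ ε)
    (h1 : ε ≤ 1 / 20) {h : List (Fin n × Fin n)} {f : Fin n × Fin n}
    (hf : f.1 ≠ f.2) (hmin : SS T l ε h f ≤ SS T l ε h f.swap) :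
    Phi T l (2 - 2 * ε) (f :: h) ≤ Phi T l (2 - 2 * ε) h := by
  rw [SS_swap hT l ε h hf] at hmin
  unfold SS at hmin
  unfold Phi
  calc ∑ o : Fin k → Option (Fin n), w T l (2 - 2 * ε) (f :: h) o
      ≤ ∑ o : Fin k → Option (Fin n), w T l (2 - 2 * ε) h o * (1 + sc T l ε h o f) := by
        apply sum_le_sum
        intro o _
        refine (obj_one h1 h o f).trans ?_
        apply mul_le_mul_of_nonneg_left _ (w_nonneg (by linarith) _ _)
        split_ifs <;> linarith
    _ = ∑ o : Fin k → Option (Fin n), w T l (2 - 2 * ε) h o +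
        ∑ o : Fin k → Option (Fin n), sc T l ε h o f * w T l (2 - 2 * ε) h o := by
        rw [← sum_add_distrib]
        apply sum_congr rfl
        intro o _
        ring
    _ ≤ _ := by linarith

/-- One arc at most doubles the potential. -/
theorem first_le (T : Fin k → Fin k → Prop) {l : ℕ} {ε : ℝ} (h0 : 0 ≤ ε)
    (h1 : ε ≤ 1 / 20) (h : List (Fin n × Fin n)) (a : Fin n × Fin n) :
    Phi T l (2 - 2 * ε) (a :: h) ≤ 2 * Phi T l (2 - 2 * ε) h := by
  unfold Phi
  rw [mul_sum]
  apply sum_le_sum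
  intro o _
  have hw := w_nonneg (T := T) (l := l) (q := 2 - 2 * ε) (by linarith) h o
  have hs := sqrt2_le
  by_cases hi : ins (im o) a
  · by_cases hr : Right T o a
    · rw [w_cons_right hi hr, mul_comm]
      apply mul_le_mul_of_nonneg_right _ hw
      split_ifs <;> linarith
    · rw [w_cons_wrong hi hr]
      linarith
  · rw [w_cons_out hi]
    linarith

end Pool.Agent.helper11.OG
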