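import Pool.Agent.helper11.OG.Notions

/-! Basic facts on degrees and multipliers. -/

namespace Pool.Agent.helper11.OG

open Finset

variable {n k : ℕ}

theorem ins_mono {S S' : Finset (Fin n)} (hS : S ⊆ S') {a : Fin n × Fin n} (h : ins S a) :
    ins S' a := ⟨hS h.1, hS h.2⟩

theorem deg_mono {S S' : Finset (Fin n)} (hS : S ⊆ S') (h : List (Fin n × Fin n)) (v : Fin n) :
    deg h S v ≤ deg h S' v := by
  induction h with
  | nil => exact le_rfl
  | cons a h ih =>
    unfold deg
    by_cases h1 : ins S a ∧ (a.1 = v ∨ a.2 = v)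
    · rw [if_pos h1, if_pos ⟨ins_mono hS h1.1, h1.2⟩]
      omega
    · rw [if_neg h1]
      omega

theorem early_mono {S S' : Finset (Fin n)} (hS : S ⊆ S') {l : ℕ} {h : List (Fin n × Fin n)}
    {a : Fin n × Fin n} (he : early l h S' a) : early l h S a :=
  ⟨(deg_mono hS h _).trans_lt he.1, (deg_mono hS h _).trans_lt he.2⟩

theorem deg_cons_le (a : Fin n × Fin n) (h : List (Fin n × Fin n)) (S : Finset (Fin n))
    (v : Fin n) : deg h S v ≤ deg (a :: h) S v := by
  rw [deg]
  omega

theorem early_cons {l : ℕ} {h : List (Fin n × Fin n)} {S : Finset (Fin n)}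
    {a b : Fin n × Fin n} (he : early l (b :: h) S a) : early l h S a :=
  ⟨(deg_cons_le b h S _).trans_lt he.1, (deg_cons_le b h S _).trans_lt he.2⟩

theorem M_pos {l : ℕ} {q : ℝ} (hq : 0 < q) (h : List (Fin n × Fin n)) (S : Finset (Fin n)) :
    0 < M l q h S := by
  induction h with
  | nil => exact one_pos
  | cons a h ih =>
    rw [M]
    split_ifs
    · positivity
    · positivity
    · simpa using ih

theorem sqrt2_le_two : Real.sqrt 2 ≤ 2 := by
  rw [Real.sqrt_le_left (by norm_num)]
  norm_num

theorem M_cons_in {l : ℕ} {q : ℝ} {a : Fin n × Fin n} {h : List (Fin n × Fin n)}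
    {S : Finset (Fin n)} (hi : ins S a) :
    M l q (a :: h) S = M l q h S * (if early l h S a then q else Real.sqrt 2) := by
  rw [M, if_pos hi]

theorem M_cons_out {l : ℕ} {q : ℝ} {a : Fin n × Fin n} {h : List (Fin n × Fin n)}
    {S : Finset (Fin n)} (hi : ¬ ins S a) : M l q (a :: h) S = M l q h S := by
  rw [M, if_neg hi, mul_one]

theorem deg_cons_in {a : Fin n × Fin n} {h : List (Fin n × Fin n)} {S : Finset (Fin n)}
    {x : Fin n} (hi : ins S a) (hx : a.1 = x ∨ a.2 = x) :
    deg (a :: h) S x = deg h S x + 1 := by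
  rw [deg, if_pos ⟨hi, hx⟩]

theorem deg_cons_out {a : Fin n × Fin n} {h : List (Fin n × Fin n)} {S : Finset (Fin n)}
    {x : Fin n} (hx : ¬ (ins S a ∧ (a.1 = x ∨ a.2 = x))) :
    deg (a :: h) S x = deg h S x := by
  rw [deg, if_neg hx, add_zero]

/-- Removing a vertex: the multiplier drops at most by a factor `2` per arc at the vertex. -/
theorem M_erase {l : ℕ} {q : ℝ} (hq : Real.sqrt 2 ≤ q) (hq2 : q ≤ 2)
    (h : List (Fin n × Fin n)) (S : Finset (Fin n)) (x : Fin n) :
    M l q h S ≤ 2 ^ deg h S x * M l q h (S.erase x) := by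
  have h2 : (0 : ℝ) < Real.sqrt 2 := by positivity
  have hq0 : 0 < q := h2.trans_le hq
  induction h with
  | nil => simp [M, deg]
  | cons a h ih =>
    have hp := M_pos (l := l) hq0 h (S.erase x)
    have hp' := M_pos (l := l) hq0 h S
    have h3 : (0 : ℝ) < 2 ^ deg h S x := by positivity
    by_cases hi : ins S a
    · by_cases hx : a.1 = x ∨ a.2 = x
      · have hn : ¬ ins (S.erase x) a := by
          rintro ⟨u1, u2⟩
          rw [mem_erase] at u1 u2
          rcases hx with hx | hx
          · exact u1.1 hx
          · exact u2.1 hx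
        rw [M_cons_in hi, M_cons_out hn, deg_cons_in hi hx, pow_succ]
        have hm : (if early l h S a then q else Real.sqrt 2) ≤ 2 := by
          split_ifs
          · exact hq2
          · exact sqrt2_le_two
        have hm0 : 0 ≤ (if early l h S a then q else Real.sqrt 2) := by
          split_ifs
          · exact hq0.le
          · exact h2.le
        calc M l q h S * (if early l h S a then q else Real.sqrt 2)
            ≤ (2 ^ deg h S x * M l q h (S.erase x)) * 2 :=
              mul_le_mul ih hm hm0 (by positivity)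
          _ = _ := by ring
      · have hy : ins (S.erase x) a := by
          push Not at hx
          exact ⟨mem_erase.2 ⟨hx.1, hi.1⟩, mem_erase.2 ⟨hx.2, hi.2⟩⟩
        rw [M_cons_in hi, M_cons_in hy, deg_cons_out (fun u => hx u.2)]
        have hm : (if early l h S a then q else Real.sqrt 2) ≤
            (if early l h (S.erase x) a then q else Real.sqrt 2) := by
          by_cases he : early l h S a
          · rw [if_pos he, if_pos (early_mono (erase_subset x S) he)]
          · rw [if_neg he]
            split_ifs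
            · exact hq
            · exact le_rfl
        have hm0 : 0 ≤ (if early l h S a then q else Real.sqrt 2) := by
          split_ifs
          · exact hq0.le
          · exact h2.le
        calc M l q h S * (if early l h S a then q else Real.sqrt 2)
            ≤ (2 ^ deg h S x * M l q h (S.erase x)) *
                (if early l h (S.erase x) a then q else Real.sqrt 2) :=
              mul_le_mul ih hm hm0 (by positivity)
          _ = _ := by ring
    · have hn : ¬ ins (S.erase x) a := fun u => hi (ins_mono (erase_subset x S) u)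
      rw [M_cons_out hi, M_cons_out hn, deg_cons_out (fun u => hi u.1)]
      exact ih

theorem mem_im {o : Fin k → Option (Fin n)} {v : Fin n} : v ∈ im o ↔ ∃ i, o i = some v := by
  simp [im]

/-- the placement without the role `i` -/
def rem (o : Fin k → Option (Fin n)) (i : Fin k) : Fin k → Option (Fin n) :=
  Function.update o i none

theorem rem_self (o : Fin k → Option (Fin n)) (i : Fin k) : rem o i i = none :=
  Function.update_self (β := fun _ => Option (Fin n)) i none o

theorem rem_of_ne (o : Fin k → Option (Fin n)) {i j : Fin k} (h : j ≠ i) : rem o i j = o j :=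
  Function.update_of_ne (β := fun _ => Option (Fin n)) h none o

theorem rem_some {o : Fin k → Option (Fin n)} {i j : Fin k} {v : Fin n}
    (h : rem o i j = some v) : j ≠ i ∧ o j = some v := by
  by_cases hj : j = i
  · rw [hj, rem_self] at h
    exact absurd h (by simp)
  · rw [rem_of_ne o hj] at h
    exact ⟨hj, h⟩

theorem im_rem {o : Fin k → Option (Fin n)} (ho : Inj o) {i : Fin k} {x : Fin n}
    (hi : o i = some x) : im (rem o i) = (im o).erase x := by
  ext v
  rw [mem_im, mem_erase, mem_im]
  constructor
  · rintro ⟨j, hj⟩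
    obtain ⟨h1, h2⟩ := rem_some hj
    refine ⟨?_, j, h2⟩
    rintro rfl
    exact h1 (ho j i v h2 hi)
  · rintro ⟨h1, j, hj⟩
    refine ⟨j, ?_⟩
    rw [rem_of_ne, hj]
    rintro rfl
    rw [hi, Option.some.injEq] at hj
    exact h1 hj.symm

theorem alive_rem {T : Fin k → Fin k → Prop} {h : List (Fin n × Fin n)}
    {o : Fin k → Option (Fin n)} (ho : Alive T h o) {i : Fin k} {x : Fin n}
    (hi : o i = some x) : Alive T h (rem o i) := by
  obtain ⟨h1, h2⟩ := ho
  refine ⟨?_, ?_⟩
  · intro j j' v hj hj'
    exact h1 j j' v (rem_some hj).2 (rem_some hj').2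
  · intro a ha hins
    rw [im_rem h1 hi] at hins
    obtain ⟨j, j', hj, hj', hT⟩ := h2 a ha (ins_mono (erase_subset x _) hins)
    refine ⟨j, j', ?_, ?_, hT⟩
    · rw [rem_of_ne, hj]
      rintro rfl
      rw [hi, Option.some.injEq] at hj
      exact (mem_erase.1 hins.1).1 hj.symm
    · rw [rem_of_ne, hj']
      rintro rfl
      rw [hi, Option.some.injEq] at hj'
      exact (mem_erase.1 hins.2).1 hj'.symm

theorem w0_nonneg (o : Fin k → Option (Fin n)) : 0 ≤ w0 o := by
  unfold w0
  apply prod_nonneg
  intro i _
  split_ifs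
  · positivity
  · exact zero_le_one

theorem w0_rem {o : Fin k → Option (Fin n)} {i : Fin k} {x : Fin n} (hi : o i = some x) :
    w0 (rem o i) = n * w0 o := by
  unfold w0
  rw [← mul_prod_erase univ _ (mem_univ i), ← mul_prod_erase univ (fun i => _) (mem_univ i),
    rem_self, if_pos rfl, hi, if_neg (by simp), one_mul]
  congr 1
  apply prod_congr rfl
  intro j hj
  rw [rem_of_ne o (mem_erase.1 hj).1]

theorem w_nonneg {T : Fin k → Fin k → Prop} {l : ℕ} {q : ℝ} (hq : 0 < q)
    (h : List (Fin n × Fin n)) (o : Fin k → Option (Fin n)) : 0 ≤ w T l q h o := by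
  unfold w
  split_ifs
  · exact mul_nonneg (w0_nonneg o) (M_pos hq _ _).le
  · exact le_rfl

/-- The weight of a placement against the weight of the placement with one role less. -/
theorem w_rem {T : Fin k → Fin k → Prop} {l : ℕ} {q : ℝ} (hq : Real.sqrt 2 ≤ q) (hq2 : q ≤ 2)
    {h : List (Fin n × Fin n)} {o : Fin k → Option (Fin n)} {i : Fin k} {x : Fin n}
    (hi : o i = some x) : n * w T l q h o ≤ 2 ^ deg h (im o) x * w T l q h (rem o i) := by
  have h2 : (0 : ℝ) < Real.sqrt 2 := by positivity
  have hq0 : 0 < q := h2.trans_le hq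
  by_cases ho : Alive T h o
  · unfold w
    rw [if_pos ho, if_pos (alive_rem ho hi), w0_rem hi, im_rem ho.1 hi]
    have h3 := M_erase (l := l) hq hq2 h (im o) x
    have h4 : 0 ≤ (n : ℝ) * w0 o := mul_nonneg (by positivity) (w0_nonneg o)
    calc (n : ℝ) * (w0 o * M l q h (im o)) = n * w0 o * M l q h (im o) := by ring
      _ ≤ n * w0 o * (2 ^ deg h (im o) x * M l q h ((im o).erase x)) :=
        mul_le_mul_of_nonneg_left h3 h4
      _ = _ := by ring
  · have h5 : w T l q h o = 0 := by
      unfold w
      rw [if_neg ho]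
    rw [h5, mul_zero]
    exact mul_nonneg (by positivity) (w_nonneg hq0 _ _)

end Pool.Agent.helper11.OG
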