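import Pool.Agent.helper11.OG.Basic

/-! A complete set of `l + 1` vertices has at least `l (l + 1) / 2` early arcs. -/

namespace Pool.Agent.helper11.OG

open Finset

variable {n k : ℕ}

/-- number of early arcs at `x` inside `S` -/
def nEx (l : ℕ) : List (Fin n × Fin n) → Finset (Fin n) → Fin n → ℕ
  | [], _, _ => 0
  | a :: h, S, x => nEx l h S x + if ins S a ∧ early l h S a ∧ (a.1 = x ∨ a.2 = x) then 1 else 0

theorem legal_cons {a : Fin n × Fin n} {h : List (Fin n × Fin n)} :
    Legal (a :: h) ↔ a.1 ≠ a.2 ∧ a ∉ h ∧ a.swap ∉ h ∧ Legal h := by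
  unfold Legal
  rw [List.forall_mem_cons, List.pairwise_cons]
  constructor
  · rintro ⟨⟨h1, h2⟩, h3, h4⟩
    refine ⟨h1, fun h5 => (h3 a h5).1 rfl, fun h5 => (h3 _ h5).2 (by simp), h2, h4⟩
  · rintro ⟨h1, h2, h3, h4, h5⟩
    refine ⟨⟨h1, h4⟩, fun b hb => ⟨?_, ?_⟩, h5⟩
    · rintro rfl
      exact h2 hb
    · rintro rfl
      exact h3 (by simpa using hb)

/-- the degree drops at most by one when another vertex is removed -/
theorem deg_le_erase {h : List (Fin n × Fin n)} (hL : Legal h) (S : Finset (Fin n))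
    {x v : Fin n} (hv : v ≠ x) : deg h S v ≤ deg h (S.erase x) v +
      if (x, v) ∈ h ∨ (v, x) ∈ h then 1 else 0 := by
  induction h with
  | nil => simp [deg]
  | cons a h ih =>
    obtain ⟨h1, h2, h3, h4⟩ := legal_cons.1 hL
    have ih' := ih h4
    by_cases ha : a = (x, v) ∨ a = (v, x)
    · have hn : ¬ ((x, v) ∈ h ∨ (v, x) ∈ h) := by
        rcases ha with rfl | rfl
        · rintro (u | u)
          · exact h2 u
          · exact h3 u
        · rintro (u | u)
          · exact h3 u
          · exact h2 u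
      have hp : (x, v) ∈ a :: h ∨ (v, x) ∈ a :: h := by
        rcases ha with rfl | rfl
        · exact Or.inl List.mem_cons_self
        · exact Or.inr List.mem_cons_self
      rw [if_neg hn] at ih'
      rw [if_pos hp]
      have e1 : deg (a :: h) S v ≤ deg h S v + 1 := by
        rw [deg]
        split_ifs <;> omega
      have e2 := deg_cons_le a h (S.erase x) v
      omega
    · push Not at ha
      have hq : ((x, v) ∈ a :: h ∨ (v, x) ∈ a :: h) ↔ ((x, v) ∈ h ∨ (v, x) ∈ h) := by
        rw [List.mem_cons, List.mem_cons]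
        constructor
        · rintro ((u | u) | (u | u))
          · exact absurd u.symm ha.1
          · exact Or.inl u
          · exact absurd u.symm ha.2
          · exact Or.inr u
        · rintro (u | u)
          · exact Or.inl (Or.inr u)
          · exact Or.inr (Or.inr u)
      rw [show (if (x, v) ∈ a :: h ∨ (v, x) ∈ a :: h then 1 else 0) =
        (if (x, v) ∈ h ∨ (v, x) ∈ h then 1 else 0) from by
          by_cases u : (x, v) ∈ h ∨ (v, x) ∈ h
          · rw [if_pos u, if_pos (hq.2 u)]
          · rw [if_neg u, if_neg (fun u' => u (hq.1 u'))]]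
      by_cases hb : ins S a ∧ (a.1 = v ∨ a.2 = v)
      · have hi : ins (S.erase x) a := by
          obtain ⟨⟨c1, c2⟩, c3⟩ := hb
          refine ⟨mem_erase.2 ⟨?_, c1⟩, mem_erase.2 ⟨?_, c2⟩⟩
          · rintro rfl
            rcases c3 with c3 | c3
            · exact hv c3.symm
            · exact ha.1 (Prod.ext rfl c3)
          · rintro rfl
            rcases c3 with c3 | c3
            · exact ha.2 (Prod.ext c3 rfl)
            · exact hv c3.symm
        rw [deg_cons_in hb.1 hb.2, deg_cons_in hi hb.2]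
        omega
      · rw [deg_cons_out hb]
        have e2 := deg_cons_le a h (S.erase x) v
        omega

theorem deg_le_erase' {h : List (Fin n × Fin n)} (hL : Legal h) (S : Finset (Fin n))
    {x v : Fin n} (hv : v ≠ x) : deg h S v ≤ deg h (S.erase x) v + 1 := by
  have h1 := deg_le_erase hL S hv
  split_ifs at h1 <;> omega

theorem nE_erase {h : List (Fin n × Fin n)} (hL : Legal h) (l : ℕ) (S : Finset (Fin n))
    (x : Fin n) : nE l h (S.erase x) + nEx (l + 1) h S x ≤ nE (l + 1) h S := by
  induction h with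
  | nil => simp [nE, nEx]
  | cons a h ih =>
    obtain ⟨h1, h2, h3, h4⟩ := legal_cons.1 hL
    have ih' := ih h4
    rw [nE, nEx, nE]
    by_cases c1 : ins (S.erase x) a ∧ early l h (S.erase x) a
    · have hx1 : a.1 ≠ x := (mem_erase.1 c1.1.1).1
      have hx2 : a.2 ≠ x := (mem_erase.1 c1.1.2).1
      have c2 : ¬ (ins S a ∧ early (l + 1) h S a ∧ (a.1 = x ∨ a.2 = x)) := by
        rintro ⟨-, -, u | u⟩
        · exact hx1 u
        · exact hx2 u
      have c3 : ins S a ∧ early (l + 1) h S a := by
        refine ⟨ins_mono (erase_subset x S) c1.1, ?_, ?_⟩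
        · exact (deg_le_erase' h4 S hx1).trans_lt (Nat.succ_lt_succ c1.2.1)
        · exact (deg_le_erase' h4 S hx2).trans_lt (Nat.succ_lt_succ c1.2.2)
      rw [if_pos c1, if_neg c2, if_pos c3]
      omega
    · rw [if_neg c1]
      by_cases c2 : ins S a ∧ early (l + 1) h S a ∧ (a.1 = x ∨ a.2 = x)
      · rw [if_pos c2, if_pos ⟨c2.1, c2.2.1⟩]
        omega
      · rw [if_neg c2]
        omega

theorem nEx_eq {L : ℕ} {h : List (Fin n × Fin n)} {S : Finset (Fin n)}
    (hs : ∀ v, deg h S v < L) (x : Fin n) : nEx L h S x = deg h S x := by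
  induction h with
  | nil => rfl
  | cons a h ih =>
    have hs' : ∀ v, deg h S v < L := fun v => (deg_cons_le a h S v).trans_lt (hs v)
    rw [nEx, deg, ih hs']
    congr 1
    by_cases c : ins S a ∧ (a.1 = x ∨ a.2 = x)
    · rw [if_pos c, if_pos ⟨c.1, ⟨hs' _, hs' _⟩, c.2⟩]
    · rw [if_neg c, if_neg (fun u => c ⟨u.1, u.2.2⟩)]

theorem nEx_cons {L : ℕ} {a : Fin n × Fin n} {h : List (Fin n × Fin n)} {S : Finset (Fin n)}
    (hs : ∀ v, deg h S v < L) (x : Fin n) : nEx L (a :: h) S x = deg (a :: h) S x := by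
  rw [nEx, deg, nEx_eq hs]
  congr 1
  by_cases c : ins S a ∧ (a.1 = x ∨ a.2 = x)
  · rw [if_pos c, if_pos ⟨c.1, ⟨hs _, hs _⟩, c.2⟩]
  · rw [if_neg c, if_neg (fun u => c ⟨u.1, u.2.2⟩)]

theorem mem_of_deg_pos {h : List (Fin n × Fin n)} {S : Finset (Fin n)} {x : Fin n}
    (hd : 0 < deg h S x) : x ∈ S := by
  induction h with
  | nil => exact absurd hd (by simp [deg])
  | cons a h ih =>
    by_cases c : ins S a ∧ (a.1 = x ∨ a.2 = x)
    · rcases c with ⟨⟨c1, c2⟩, rfl | rfl⟩
      · exact c1
      · exact c2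
    · rw [deg_cons_out c] at hd
      exact ih hd

theorem exists_nEx {L : ℕ} (hL : 0 < L) {h : List (Fin n × Fin n)} {S : Finset (Fin n)}
    (hx : ∃ x, L ≤ deg h S x) : ∃ x ∈ S, L ≤ nEx L h S x := by
  induction h with
  | nil =>
    obtain ⟨x, hx⟩ := hx
    simp [deg] at hx
    omega
  | cons a h ih =>
    by_cases c : ∃ x, L ≤ deg h S x
    · obtain ⟨x, hxS, hx1⟩ := ih c
      refine ⟨x, hxS, hx1.trans ?_⟩
      rw [nEx]
      omega
    · push Not at c
      obtain ⟨x, hx⟩ := hx
      refine ⟨x, mem_of_deg_pos (hL.trans_le hx), ?_⟩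
      rw [nEx_cons c]
      exact hx

/-- all pairs of vertices of `S` are directed -/
def Comp (h : List (Fin n × Fin n)) (S : Finset (Fin n)) : Prop :=
  ∀ x ∈ S, ∀ y ∈ S, x ≠ y → (x, y) ∈ h ∨ (y, x) ∈ h

theorem deg_ge {h : List (Fin n × Fin n)} {S : Finset (Fin n)} {v : Fin n} (hv : v ∈ S) :
    ((S.erase v).filter fun y => (v, y) ∈ h ∨ (y, v) ∈ h).card ≤ deg h S v := by
  induction h with
  | nil => simp [deg]
  | cons a h ih =>
    by_cases c : ins S a ∧ (a.1 = v ∨ a.2 = v)
    · rw [deg_cons_in c.1 c.2]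
      have hsub : ((S.erase v).filter fun y => (v, y) ∈ a :: h ∨ (y, v) ∈ a :: h) ⊆
          insert (if a.1 = v then a.2 else a.1)
            ((S.erase v).filter fun y => (v, y) ∈ h ∨ (y, v) ∈ h) := by
        intro y hy
        rw [mem_filter] at hy
        obtain ⟨hyS, hy⟩ := hy
        have hyv : y ≠ v := (mem_erase.1 hyS).1
        rw [mem_insert, mem_filter]
        rw [List.mem_cons, List.mem_cons] at hy
        rcases hy with (u | u) | (u | u)
        · left
          rw [← u, if_pos rfl]
        · exact Or.inr ⟨hyS, Or.inl u⟩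
        · left
          rw [← u, if_neg hyv]
        · exact Or.inr ⟨hyS, Or.inr u⟩
      exact ((card_le_card hsub).trans (card_insert_le _ _)).trans (Nat.succ_le_succ ih)
    · rw [deg_cons_out c]
      refine (card_le_card ?_).trans ih
      intro y hy
      rw [mem_filter] at hy ⊢
      obtain ⟨hyS, hy⟩ := hy
      refine ⟨hyS, ?_⟩
      rw [List.mem_cons, List.mem_cons] at hy
      rcases hy with (u | u) | (u | u)
      · exact absurd ⟨⟨by rw [← u]; exact hv, by rw [← u]; exact mem_of_mem_erase hyS⟩,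
          Or.inl (by rw [← u])⟩ c
      · exact Or.inl u
      · exact absurd ⟨⟨by rw [← u]; exact mem_of_mem_erase hyS, by rw [← u]; exact hv⟩,
          Or.inr (by rw [← u])⟩ c
      · exact Or.inr u

theorem deg_comp {h : List (Fin n × Fin n)} {S : Finset (Fin n)} (hC : Comp h S) {v : Fin n}
    (hv : v ∈ S) : S.card - 1 ≤ deg h S v := by
  have h1 := deg_ge (h := h) hv
  rw [filter_true_of_mem, card_erase_of_mem hv] at h1
  · exact h1
  · intro y hy
    exact hC v hv y (mem_of_mem_erase hy) (ne_of_mem_erase hy).symm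

/-- The number of early arcs. -/
theorem nE_ge {h : List (Fin n × Fin n)} (hL : Legal h) (l : ℕ) (S : Finset (Fin n))
    (hC : Comp h S) (hS : l + 1 ≤ S.card) : l * (l + 1) ≤ 2 * nE l h S := by
  induction l generalizing S with
  | zero => simp
  | succ l ih =>
    have hne : S.Nonempty := by
      rw [← card_pos]
      omega
    obtain ⟨v, hv⟩ := hne
    have hd := deg_comp hC hv
    obtain ⟨x, hxS, hx⟩ := exists_nEx (L := l + 1) (Nat.succ_pos l) (h := h) (S := S)
      ⟨v, by omega⟩
    have h1 := ih (S.erase x)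
      (fun y hy z hz => hC y (mem_of_mem_erase hy) z (mem_of_mem_erase hz))
      (by rw [card_erase_of_mem hxS]; omega)
    have h2 := nE_erase hL l S x
    nlinarith

theorem sum_deg {h : List (Fin n × Fin n)} (hL : Legal h) (S : Finset (Fin n)) :
    ∑ v ∈ S, deg h S v = 2 * nA h S := by
  induction h with
  | nil => simp [deg, nA]
  | cons a h ih =>
    obtain ⟨h1, h2, h3, h4⟩ := legal_cons.1 hL
    have e1 : ∑ v ∈ S, deg (a :: h) S v = ∑ v ∈ S, deg h S v +
        ∑ v ∈ S, if ins S a ∧ (a.1 = v ∨ a.2 = v) then 1 else 0 := by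
      rw [← sum_add_distrib]
      rfl
    rw [e1, ih h4, nA, mul_add]
    congr 1
    by_cases hi : ins S a
    · rw [if_pos hi, ← card_filter]
      have e2 : (S.filter fun v => ins S a ∧ (a.1 = v ∨ a.2 = v)) = {a.1, a.2} := by
        ext v
        rw [mem_filter, mem_insert, mem_singleton]
        constructor
        · rintro ⟨_, _, u | u⟩
          · exact Or.inl u.symm
          · exact Or.inr u.symm
        · rintro (u | u)
          · exact ⟨by rw [u]; exact hi.1, hi, Or.inl u.symm⟩
          · exact ⟨by rw [u]; exact hi.2, hi, Or.inr u.symm⟩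
      rw [e2, card_pair h1]
    · rw [if_neg hi]
      apply sum_eq_zero
      intro v _
      rw [if_neg (fun u => hi u.1)]

theorem nA_ge {h : List (Fin n × Fin n)} (hL : Legal h) (S : Finset (Fin n))
    (hC : Comp h S) : S.card * (S.card - 1) ≤ 2 * nA h S := by
  rw [← sum_deg hL S, ← smul_eq_mul]
  exact card_nsmul_le_sum S _ _ fun v hv => deg_comp hC hv

theorem M_eq {l : ℕ} {q : ℝ} (h : List (Fin n × Fin n)) (S : Finset (Fin n)) :
    M l q h S = Real.sqrt 2 ^ nA h S * (q / Real.sqrt 2) ^ nE l h S := by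
  have h2 : Real.sqrt 2 ≠ 0 := by positivity
  induction h with
  | nil => simp [M, nA, nE]
  | cons a h ih =>
    by_cases hi : ins S a
    · rw [M_cons_in hi, nA, nE, if_pos hi, pow_succ, ih]
      by_cases he : early l h S a
      · rw [if_pos he, if_pos ⟨hi, he⟩, pow_succ]
        field_simp
      · rw [if_neg he, if_neg (fun u => he u.2), add_zero]
        ring
    · rw [M_cons_out hi, nA, nE, if_neg hi, if_neg (fun u => hi u.1), add_zero, add_zero, ih]

end Pool.Agent.helper11.OG
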