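import Mathlib

/-! The asymptotic estimates. -/

namespace Pool.Agent.helper11.OG

open Filter

/-- The exponent inequality. -/
theorem num_main {r L M k l : ℝ} (hr : r * r = 3) (hM : 0 ≤ M)
    (h1 : 5 / 2 ≤ r * L) (h4 : 5 * (2 + r) + 19 ≤ (4 * r - 6) * M) (hL : 15 ≤ L)
    (hlam : 0 ≤ L - 3 * M - 9)
    (hk : (2 + r) * L + 2 * M ≤ k) (hl : L - 3 * M - 9 ≤ l) :
    2 + k * (1 + L) < (k * (k - 1) + l * (l + 1)) / 4 := by
  set κ := (2 + r) * L + 2 * M with hκ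
  have e1 : κ * (κ - 5 - 4 * L) ≤ k * (k - 5 - 4 * L) := by
    have h2 : 0 ≤ (k - κ) * (k + κ - 5 - 4 * L) :=
      mul_nonneg (by linarith) (by
        have : κ = 2 * L + r * L + 2 * M := by rw [hκ]; ring
        linarith)
    nlinarith
  have e2 : (L - 3 * M - 9) ^ 2 ≤ l * (l + 1) := by
    nlinarith
  have e3 : κ * (κ - 5 - 4 * L) + (L - 3 * M - 9) ^ 2 =
      L * ((4 * r - 6) * M - 5 * (2 + r) - 18) + (4 * M ^ 2 - 10 * M) + (3 * M + 9) ^ 2 +
        (r * r - 3) * L ^ 2 := by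
    rw [hκ]
    ring
  rw [hr, sub_self, zero_mul, add_zero] at e3
  have e4 : L * 1 ≤ L * ((4 * r - 6) * M - 5 * (2 + r) - 18) :=
    mul_le_mul_of_nonneg_left (by linarith) (by linarith)
  nlinarith [sq_nonneg (M - 1)]

/-- The inequality between the potentials. -/
theorem num_pot {n k l : ℕ} {L : ℝ} (hn : (n : ℝ) = 2 ^ L) (hk : 1 ≤ k) (hlk : l + 1 ≤ k)
    (h : 2 + (k : ℝ) * (1 + L) < ((k : ℝ) * (k - 1) + (l : ℝ) * (l + 1)) / 4) :
    2 * (2 * (n : ℝ)) ^ k < Real.sqrt 2 ^ (k * (k - 1) / 2) *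
      ((2 - 2 * (1 / (k : ℝ) ^ 2)) / Real.sqrt 2) ^ (l * (l + 1) / 2) := by
  have hs0 : (0 : ℝ) < Real.sqrt 2 := by positivity
  have hs2 : Real.sqrt 2 * Real.sqrt 2 = 2 := Real.mul_self_sqrt (by norm_num)
  have hk' : (1 : ℝ) ≤ k := by exact_mod_cast hk
  have hk2 : (0 : ℝ) < (k : ℝ) ^ 2 := by positivity
  set ε : ℝ := 1 / (k : ℝ) ^ 2 with hε
  have hε0 : 0 < ε := by positivity
  have hε1 : ε ≤ 1 := by
    rw [hε, div_le_one hk2]
    exact one_le_pow₀ hk'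
  set N := k * (k - 1) / 2 with hN
  set E := l * (l + 1) / 2 with hE
  have hN2 : (N : ℝ) = (k : ℝ) * (k - 1) / 2 := by
    have h1 : 2 * N = k * (k - 1) := Nat.two_mul_div_two_of_even (Nat.even_mul_pred_self k)
    have h2 : (2 : ℝ) * N = k * (k - 1) := by
      have := congrArg (fun x : ℕ => (x : ℝ)) h1
      push_cast [Nat.cast_sub hk] at this
      linarith
    linarith
  have hE2 : (E : ℝ) = (l : ℝ) * (l + 1) / 2 := by
    have h1 : 2 * E = l * (l + 1) := Nat.two_mul_div_two_of_even (Nat.even_mul_succ_self l)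
    have h2 : (2 : ℝ) * E = l * (l + 1) := by
      have := congrArg (fun x : ℕ => (x : ℝ)) h1
      push_cast at this
      linarith
    linarith
  have hEk : (E : ℝ) * ε ≤ 1 / 2 := by
    have h1 : (l : ℝ) + 1 ≤ k := by exact_mod_cast hlk
    have h2 : (E : ℝ) ≤ (k : ℝ) ^ 2 / 2 := by
      rw [hE2]
      nlinarith [(Nat.cast_nonneg l : (0 : ℝ) ≤ l)]
    calc (E : ℝ) * ε ≤ (k : ℝ) ^ 2 / 2 * ε := mul_le_mul_of_nonneg_right h2 hε0.le
      _ = 1 / 2 := by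
        rw [hε]
        field_simp
  have hB : (1 : ℝ) / 2 ≤ (1 - ε) ^ E := by
    have h1 := one_add_mul_le_pow (a := -ε) (by linarith) E
    have h2 : 1 + (E : ℝ) * -ε = 1 - E * ε := by ring
    rw [h2, ← sub_eq_add_neg] at h1
    linarith
  have hq : (2 - 2 * ε) / Real.sqrt 2 = Real.sqrt 2 * (1 - ε) := by
    rw [div_eq_iff hs0.ne']
    calc 2 - 2 * ε = (Real.sqrt 2 * Real.sqrt 2) * (1 - ε) := by rw [hs2]; ring
      _ = _ := by ring
  rw [hq]
  have hmain : 4 * (2 * (n : ℝ)) ^ k < Real.sqrt 2 ^ (N + E) := by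
    have h2n : (2 * (n : ℝ)) = (2 : ℝ) ^ (1 + L) := by
      rw [hn, Real.rpow_add (by norm_num), Real.rpow_one]
    have e1 : (4 : ℝ) * (2 * (n : ℝ)) ^ k = (2 : ℝ) ^ (2 + (k : ℝ) * (1 + L)) := by
      rw [h2n, ← Real.rpow_natCast, ← Real.rpow_mul (by norm_num),
        Real.rpow_add (by norm_num), mul_comm (k : ℝ)]
      congr 1
      norm_num
    have e2 : Real.sqrt 2 ^ (N + E) =
        (2 : ℝ) ^ (((k : ℝ) * (k - 1) + (l : ℝ) * (l + 1)) / 4) := by
      rw [Real.sqrt_eq_rpow, ← Real.rpow_natCast, ← Real.rpow_mul (by norm_num)]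
      congr 1
      push_cast
      rw [hN2, hE2]
      ring
    rw [e1, e2]
    exact Real.rpow_lt_rpow_of_exponent_lt (by norm_num) h
  have h5 : (0 : ℝ) < Real.sqrt 2 ^ (N + E) := by positivity
  calc 2 * (2 * (n : ℝ)) ^ k = (4 * (2 * (n : ℝ)) ^ k) / 2 := by ring
    _ < Real.sqrt 2 ^ (N + E) / 2 := by linarith
    _ = Real.sqrt 2 ^ (N + E) * (1 / 2) := by ring
    _ ≤ Real.sqrt 2 ^ (N + E) * (1 - ε) ^ E := mul_le_mul_of_nonneg_left hB h5.le
    _ = Real.sqrt 2 ^ N * (Real.sqrt 2 * (1 - ε)) ^ E := by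
      rw [pow_add, mul_pow]
      ring

/-- All the conditions hold for large `n`. -/
theorem num_final : ∃ n₀ : ℕ, ∀ n ≥ n₀, ∃ k l : ℕ,
    2 ≤ n ∧ l + 1 ≤ k ∧
    (∀ k' : ℕ, (2 + Real.sqrt 3) * Real.logb 2 n + 2 * Real.logb 2 (Real.logb 2 n) ≤ k' →
      k ≤ k') ∧
    1 / (k : ℝ) ^ 2 ≤ 1 / 20 ∧ 3 * (k : ℝ) * 2 ^ l ≤ 1 / (k : ℝ) ^ 2 * n ∧
    2 * (2 * (n : ℝ)) ^ k < Real.sqrt 2 ^ (k * (k - 1) / 2) *
      ((2 - 2 * (1 / (k : ℝ) ^ 2)) / Real.sqrt 2) ^ (l * (l + 1) / 2) := by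
  set r : ℝ := Real.sqrt 3 with hr
  have hr33 : r * r = 3 := Real.mul_self_sqrt (by norm_num)
  have hr0 : 0 < r := by positivity
  have hr1 : 1.73 < r := by
    rw [hr]
    exact Real.lt_sqrt_of_sq_lt (by norm_num)
  have hr2 : r < 1.75 := by
    rw [hr, Real.sqrt_lt' (by norm_num)]
    norm_num
  have hlogtop : Tendsto (fun L : ℝ => Real.logb 2 L) atTop atTop :=
    Real.tendsto_logb_atTop (by norm_num)
  have ev : ∀ᶠ L : ℝ in atTop, 15 ≤ L ∧ 0 ≤ Real.logb 2 L ∧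
      5 * (2 + r) + 19 ≤ (4 * r - 6) * Real.logb 2 L ∧ 10 * Real.logb 2 L + 20 ≤ L := by
    have t1 : Tendsto (fun L : ℝ => (4 * r - 6) * Real.logb 2 L) atTop atTop :=
      hlogtop.const_mul_atTop (by linarith)
    have t2 : ∀ᶠ L : ℝ in atTop, 10 * Real.logb 2 L + 20 ≤ L := by
      have h2 := Real.isLittleO_log_id_atTop.bound (c := Real.log 2 / 20) (by
        have := Real.log_pos (show (1 : ℝ) < 2 by norm_num)
        positivity)
      filter_upwards [h2, eventually_ge_atTop (40 : ℝ)] with L hL hL1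
      have hL0 : 0 ≤ Real.log L := Real.log_nonneg (by linarith)
      rw [Real.norm_of_nonneg hL0, id, Real.norm_of_nonneg (by linarith)] at hL
      have hlog2 : 0 < Real.log 2 := Real.log_pos (by norm_num)
      have h3 : Real.logb 2 L ≤ L / 20 := by
        rw [Real.logb, div_le_iff₀ hlog2]
        linarith
      linarith
    filter_upwards [eventually_ge_atTop (15 : ℝ), hlogtop.eventually_ge_atTop 0,
      t1.eventually_ge_atTop (5 * (2 + r) + 19), t2] with L a1 a2 a3 a4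
    exact ⟨a1, a2, a3, a4⟩
  have hlog : Tendsto (fun n : ℕ => Real.logb 2 (n : ℝ)) atTop atTop :=
    (Real.tendsto_logb_atTop (by norm_num)).comp tendsto_natCast_atTop_atTop
  have ev2 := hlog.eventually ev
  rw [eventually_atTop] at ev2
  obtain ⟨n₁, hn₁⟩ := ev2
  refine ⟨max n₁ 2, fun n hn => ?_⟩
  have hn2 : 2 ≤ n := (le_max_right _ _).trans hn
  obtain ⟨a1, a2, a3, a4⟩ := hn₁ n ((le_max_left _ _).trans hn)
  set L : ℝ := Real.logb 2 (n : ℝ) with hL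
  set M : ℝ := Real.logb 2 L with hM
  have hL0 : 0 < L := by linarith
  have hn0 : (0 : ℝ) < n := by
    have : 0 < n := by omega
    exact_mod_cast this
  have hnL : (n : ℝ) = 2 ^ L := by
    rw [hL, Real.rpow_logb (by norm_num) (by norm_num) hn0]
  have hLM : L = 2 ^ M := by
    rw [hM, Real.rpow_logb (by norm_num) (by norm_num) hL0]
  have hrL1 : 1.73 * L ≤ r * L := mul_le_mul_of_nonneg_right hr1.le hL0.le
  have hrL2 : r * L ≤ 1.75 * L := mul_le_mul_of_nonneg_right hr2.le hL0.le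
  have hexp : (2 + r) * L + 2 * M = 2 * L + r * L + 2 * M := by ring
  have hcL : 0 ≤ (2 + r) * L + 2 * M := by
    rw [hexp]
    linarith
  have hlam : 0 ≤ L - 3 * M - 8 := by linarith
  set k := ⌈(2 + r) * L + 2 * M⌉₊ with hk
  set l := ⌊L - 3 * M - 8⌋₊ with hl
  have hk1 : (2 + r) * L + 2 * M ≤ k := Nat.le_ceil _
  have hk2 : (k : ℝ) < (2 + r) * L + 2 * M + 1 := Nat.ceil_lt_add_one hcL
  have hl1 : (l : ℝ) ≤ L - 3 * M - 8 := Nat.floor_le hlam
  have hl2 : L - 3 * M - 8 < (l : ℝ) + 1 := Nat.lt_floor_add_one _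
  have hk4 : (k : ℝ) ≤ 4 * L := by
    rw [hexp] at hk2
    linarith
  have hlk : l + 1 ≤ k := by
    have : (l : ℝ) + 1 ≤ k := by
      rw [hexp] at hk1
      linarith
    exact_mod_cast this
  have hk5 : (5 : ℝ) ≤ k := by
    rw [hexp] at hk1
    linarith
  have hkpos : (0 : ℝ) < k := by linarith
  refine ⟨k, l, hn2, hlk, fun k' hk' => Nat.ceil_le.2 hk', ?_, ?_, ?_⟩
  · apply one_div_le_one_div_of_le (by norm_num)
    nlinarith
  · have h7 : (2 : ℝ) ^ l ≤ 2 ^ (L - 3 * M - 8) := by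
      calc (2 : ℝ) ^ l = (2 : ℝ) ^ (l : ℝ) := (Real.rpow_natCast 2 l).symm
        _ ≤ _ := Real.rpow_le_rpow_of_exponent_le (by norm_num) hl1
    have h8 : (2 : ℝ) ^ (L - 3 * M - 8) * (256 * L ^ 3) = n := by
      have e1 : (256 : ℝ) = 2 ^ (8 : ℝ) := by norm_num
      have e2 : L ^ 3 = (2 : ℝ) ^ (3 * M) := by
        conv_lhs => rw [hLM]
        rw [← Real.rpow_natCast, ← Real.rpow_mul (by norm_num)]
        congr 1
        push_cast
        ring
      rw [e1, e2, ← Real.rpow_add (by norm_num), ← Real.rpow_add (by norm_num), hnL]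
      congr 1
      ring
    have h9 : 3 * (k : ℝ) ^ 3 ≤ 256 * L ^ 3 := by
      have := pow_le_pow_left₀ hkpos.le hk4 3
      have h10 : (4 * L) ^ 3 = 64 * L ^ 3 := by ring
      rw [h10] at this
      have h11 : 0 ≤ L ^ 3 := by positivity
      linarith
    have h10 : (0 : ℝ) < 2 ^ (L - 3 * M - 8) := by positivity
    rw [one_div, inv_mul_eq_div, le_div_iff₀ (by positivity)]
    calc 3 * (k : ℝ) * 2 ^ l * (k : ℝ) ^ 2 = 2 ^ l * (3 * (k : ℝ) ^ 3) := by ring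
      _ ≤ 2 ^ (L - 3 * M - 8) * (256 * L ^ 3) :=
        mul_le_mul h7 h9 (by positivity) h10.le
      _ = n := h8
  · exact num_pot hnL (by omega) hlk
      (num_main hr33 a2 (by linarith) a3 a1 (by linarith) hk1 (by linarith))

end Pool.Agent.helper11.OG
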