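import Pool.Agent.helper11.OG.Game
import Pool.Agent.helper11.OG.Num

/-! OBreaker wins for all large `n` and all `k ≥ (2 + √3) log n + 2 log log n`. -/

namespace Pool.Agent.helper11.OG

open Finset

/-- Winning against a sub-tournament. -/
theorem bwins_sub {n k k' : ℕ} {T : Fin k → Fin k → Prop} {T' : Fin k' → Fin k' → Prop}
    (hcopy : ∀ A : Finset (Fin n × Fin n), HasCopy T A → HasCopy T' A) {t : Bool}
    {A : Finset (Fin n × Fin n)} (h : BWins T' t A) : BWins T t A := by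
  induction h with
  | finish t A h hc => exact BWins.finish t A h fun u => hc (hcopy A u)
  | maker A h _ ih => exact BWins.maker A h ih
  | breaker A a h _ ih => exact BWins.breaker A a h ih

theorem main : ∃ n₀ : ℕ, ∀ n ≥ n₀, ∀ k : ℕ,
    (2 + Real.sqrt 3) * Real.logb 2 n + 2 * Real.logb 2 (Real.logb 2 n) ≤ k →
    ∀ T : Fin k → Fin k → Prop, IsTournament T → OBreakerWins T n := by
  obtain ⟨n₀, hn₀⟩ := num_final
  refine ⟨n₀, fun n hn k hk T hT => ?_⟩
  obtain ⟨k₀, l, h1, h2, h3, h4, h5, h6⟩ := hn₀ n hn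
  have hk₀ : k₀ ≤ k := h3 k hk
  set T₀ : Fin k₀ → Fin k₀ → Prop := fun i j => T (Fin.castLE hk₀ i) (Fin.castLE hk₀ j) with hT₀
  have hT₀t : IsTournament T₀ := by
    refine ⟨fun i => hT.1 _, fun i j hij => hT.2 _ _ ?_⟩
    intro h
    exact hij (Fin.castLE_injective hk₀ h)
  have hw : OBreakerWins T₀ n := finite_win hT₀t (by positivity) h4 h1 h5 h2 h6
  refine bwins_sub ?_ hw
  rintro A ⟨f, hf, hfT⟩
  exact ⟨f ∘ Fin.castLE hk₀, hf.comp (Fin.castLE_injective hk₀), fun i j hij => hfT _ _ hij⟩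

end Pool.Agent.helper11.OG
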