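import Pool.Agent.helper11.OG.Absorb
import Pool.Agent.helper11.OG.Early

/-! OBreaker wins if the initial potential is small against the weight of a complete copy. -/

namespace Pool.Agent.helper11.OG

open Finset

variable {n k : ℕ}

theorem free_swap {A : Finset (Fin n × Fin n)} {a : Fin n × Fin n} (ha : Free A a) :
    Free A a.swap := ⟨ha.1.symm, ha.2.2, by simpa using ha.2.1⟩

theorem free_insert {A : Finset (Fin n × Fin n)} {f e : Fin n × Fin n}
    (he : Free (insert f A) e) : Free A e ∧ e ≠ f ∧ e ≠ f.swap := by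
  obtain ⟨h1, h2, h3⟩ := he
  rw [mem_insert, not_or] at h2 h3
  refine ⟨⟨h1, h2.2, h3.2⟩, h2.1, ?_⟩
  rintro rfl
  exact h3.1 (by simp)

theorem legal_of_free {h : List (Fin n × Fin n)} (hL : Legal h) {a : Fin n × Fin n}
    (ha : Free h.toFinset a) : Legal (a :: h) := by
  obtain ⟨h1, h2, h3⟩ := ha
  rw [List.mem_toFinset] at h2 h3
  exact legal_cons.2 ⟨h1, h2, h3, hL⟩

theorem legal_swap {h : List (Fin n × Fin n)} (hL : Legal h) {a : Fin n × Fin n}
    (h1 : a ∈ h) (h2 : a.swap ∈ h) : False := by
  induction h with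
  | nil => exact absurd h1 (by simp)
  | cons b h ih =>
    obtain ⟨c1, c2, c3, c4⟩ := legal_cons.1 hL
    rcases List.mem_cons.1 h1 with rfl | h1
    · rcases List.mem_cons.1 h2 with h2 | h2
      · exact c1 (congrArg Prod.fst h2).symm
      · exact c3 h2
    · rcases List.mem_cons.1 h2 with h2 | h2
      · rw [← h2] at c3
        exact c3 (by simpa using h1)
      · exact ih c4 h1 h2

/-- The potential strategy. -/
theorem bwins_of_phi {T : Fin k → Fin k → Prop} (hT : IsTournament T) {l : ℕ} {ε C : ℝ}
    (h0 : 0 ≤ ε) (h1 : ε ≤ 1 / 20) (hn : 0 < n) (hl : 3 * (k : ℝ) * 2 ^ l ≤ ε * n)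
    (hend : ∀ h : List (Fin n × Fin n), Legal h → (∀ a, ¬ Free h.toFinset a) →
      Phi T l (2 - 2 * ε) h ≤ C → ¬ HasCopy T h.toFinset) (N : ℕ) :
    ∀ h : List (Fin n × Fin n), Legal h → {a | Free h.toFinset a}.ncard ≤ N →
      Phi T l (2 - 2 * ε) h ≤ C → BWins T false h.toFinset := by
  classical
  induction N with
  | zero =>
    intro h hL hc hP
    have hno : ∀ a, ¬ Free h.toFinset a := by
      intro a ha
      have h2 : {a | Free h.toFinset a}.ncard = 0 := by omega
      rw [Set.ncard_eq_zero (Set.toFinite _)] at h2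
      have : a ∈ ({a | Free h.toFinset a} : Set _) := ha
      rw [h2] at this
      exact this
    exact BWins.finish _ _ hno (hend h hL hno hP)
  | succ N ih =>
    intro h hL hc hP
    by_cases hfree : ∃ a, Free h.toFinset a
    · obtain ⟨a₀, ha₀⟩ := hfree
      obtain ⟨f, hf, hmin⟩ := exists_min_image (univ.filter fun a => Free h.toFinset a)
        (fun a => SS T l ε h a) ⟨a₀, mem_filter.2 ⟨mem_univ _, ha₀⟩⟩
      rw [mem_filter] at hf
      have hf' : Free h.toFinset f := hf.2
      apply BWins.breaker _ f hf'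
      by_cases h2 : ∃ a, Free (insert f h.toFinset) a
      · apply BWins.maker _ h2
        intro e he
        obtain ⟨e1, e2, e3⟩ := free_insert he
        rw [← List.toFinset_cons] at he ⊢
        rw [← List.toFinset_cons]
        have hL1 : Legal (f :: h) := legal_of_free hL hf'
        apply ih (e :: f :: h) (legal_of_free hL1 he)
        · have hsub : {a | Free (e :: f :: h).toFinset a} ⊂ {a | Free h.toFinset a} := by
            rw [Set.ssubset_iff_subset_ne]
            constructor
            · intro a ha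
              have ha' : Free (e :: f :: h).toFinset a := ha
              rw [List.toFinset_cons] at ha'
              have ha2 := (free_insert ha').1
              rw [List.toFinset_cons] at ha2
              exact (free_insert ha2).1
            · intro heq
              have : f ∈ ({a | Free h.toFinset a} : Set _) := hf'
              rw [← heq] at this
              exact this.2.1 (by simp)
          have := Set.ncard_lt_ncard hsub (Set.toFinite _)
          omega
        · refine (round_le hT h0 h1 hn hl e1.1 hf'.1 e2 e3 ?_).trans hP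
          exact hmin _ (mem_filter.2 ⟨mem_univ _, free_swap e1⟩)
      · rw [← List.toFinset_cons] at h2 ⊢
        push Not at h2
        refine BWins.finish _ _ h2 (hend _ (legal_of_free hL hf') h2 ?_)
        refine (last_le hT h0 h1 hf'.1 ?_).trans hP
        exact hmin _ (mem_filter.2 ⟨mem_univ _, free_swap hf'⟩)
    · push Not at hfree
      exact BWins.finish _ _ hfree (hend h hL hfree hP)

theorem phi_nil_le (T : Fin k → Fin k → Prop) (l : ℕ) (q : ℝ) :
    Phi T l q ([] : List (Fin n × Fin n)) ≤ (2 * n) ^ k := by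
  have h1 : ∀ o : Fin k → Option (Fin n), w T l q [] o ≤ w0 o := by
    intro o
    unfold w
    split_ifs
    · rw [M, mul_one]
    · exact w0_nonneg o
  calc Phi T l q ([] : List (Fin n × Fin n)) ≤ ∑ o : Fin k → Option (Fin n), w0 o :=
        sum_le_sum fun o _ => h1 o
    _ = ∏ _i : Fin k, ∑ v : Option (Fin n), (if v = none then (n : ℝ) else 1) := by
        rw [prod_univ_sum, Fintype.piFinset_univ]
        rfl
    _ = (2 * n) ^ k := by
        rw [prod_const, card_univ, Fintype.card_fin]
        congr 1
        rw [Fintype.sum_option, if_pos rfl]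
        have h2 : ∀ v : Fin n, (if some v = none then (n : ℝ) else 1) = 1 := by
          intro v
          rw [if_neg (by simp)]
        rw [sum_congr rfl fun v _ => h2 v, sum_const, card_univ, Fintype.card_fin,
          nsmul_eq_mul]
        ring

/-- A complete copy has a large weight. -/
theorem copy_weight {T : Fin k → Fin k → Prop} (hT : IsTournament T) {l : ℕ} {q : ℝ}
    (hq : Real.sqrt 2 ≤ q) (hk : l + 1 ≤ k) {h : List (Fin n × Fin n)} (hL : Legal h)
    (hfree : ∀ a, ¬ Free h.toFinset a) (hc : HasCopy T h.toFinset) :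
    Real.sqrt 2 ^ (k * (k - 1) / 2) * (q / Real.sqrt 2) ^ (l * (l + 1) / 2) ≤ Phi T l q h := by
  obtain ⟨c, hci, hcT⟩ := hc
  set o : Fin k → Option (Fin n) := fun i => some (c i) with ho
  have hcT' : ∀ i j, T i j → (c i, c j) ∈ h := fun i j hij => by
    have := hcT i j hij
    rwa [List.mem_toFinset] at this
  have h20 : (0 : ℝ) < Real.sqrt 2 := by positivity
  have hq0 : 0 < q := h20.trans_le hq
  have hoinj : Inj o := by
    intro i j v hi hj
    rw [ho] at hi hj
    simp only [Option.some.injEq] at hi hj
    exact hci (hi.trans hj.symm)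
  have him : im o = univ.image c := by
    ext v
    rw [mem_im, mem_image]
    constructor
    · rintro ⟨i, hi⟩
      rw [ho] at hi
      simp only [Option.some.injEq] at hi
      exact ⟨i, mem_univ _, hi⟩
    · rintro ⟨i, -, hi⟩
      exact ⟨i, by rw [ho]; simp only [hi]⟩
  have hcard : (im o).card = k := by
    rw [him, card_image_of_injective _ hci, card_univ, Fintype.card_fin]
  have hcomp : Comp h (im o) := by
    intro x _ y _ hxy
    by_contra hcon
    push Not at hcon
    apply hfree (x, y)
    refine ⟨hxy, ?_, ?_⟩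
    · rw [List.mem_toFinset]
      exact hcon.1
    · rw [List.mem_toFinset]
      exact hcon.2
  have halive : Alive T h o := by
    refine ⟨hoinj, fun a ha hi => ?_⟩
    obtain ⟨i, hi1⟩ := mem_im.1 hi.1
    obtain ⟨j, hj1⟩ := mem_im.1 hi.2
    have hi2 : c i = a.1 := by
      rw [ho] at hi1
      simpa using hi1
    have hj2 : c j = a.2 := by
      rw [ho] at hj1
      simpa using hj1
    have hne : a.1 ≠ a.2 := hL.1 a ha
    have hij : i ≠ j := by
      rintro rfl
      exact hne (hi2.symm.trans hj2)
    refine ⟨i, j, hi1, hj1, ?_⟩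
    by_contra hcon
    have hji : T j i := by
      by_contra h3
      exact hcon ((hT.2 i j hij).2 h3)
    have h4 := hcT' j i hji
    apply legal_swap hL ha
    rw [hi2, hj2] at h4
    exact h4
  have hw : w T l q h o = M l q h (im o) := by
    unfold w
    rw [if_pos halive]
    have : w0 o = 1 := by
      unfold w0
      apply prod_eq_one
      intro i _
      rw [if_neg]
      rw [ho]
      simp
    rw [this, one_mul]
  have h1 : w T l q h o ≤ Phi T l q h :=
    single_le_sum (f := fun o => w T l q h o) (fun o _ => w_nonneg hq0 h o) (mem_univ o)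
  refine le_trans ?_ h1
  rw [hw, M_eq]
  have hA := nA_ge hL (im o) hcomp
  have hE := nE_ge hL l (im o) hcomp (by rw [hcard]; exact hk)
  rw [hcard] at hA
  have h3 : (1 : ℝ) ≤ Real.sqrt 2 := by
    rw [Real.one_le_sqrt]
    norm_num
  have h4 : (1 : ℝ) ≤ q / Real.sqrt 2 := by
    rw [le_div_iff₀ h20, one_mul]
    exact hq
  apply mul_le_mul
  · exact pow_le_pow_right₀ h3 (by omega)
  · exact pow_le_pow_right₀ h4 (by omega)
  · positivity
  · positivity

/-- The finite criterion. -/
theorem finite_win {T : Fin k → Fin k → Prop} (hT : IsTournament T) {l : ℕ} {ε : ℝ}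
    (h0 : 0 ≤ ε) (h1 : ε ≤ 1 / 20) (hn : 2 ≤ n) (hl : 3 * (k : ℝ) * 2 ^ l ≤ ε * n)
    (hk : l + 1 ≤ k)
    (hC : 2 * (2 * (n : ℝ)) ^ k <
      Real.sqrt 2 ^ (k * (k - 1) / 2) * ((2 - 2 * ε) / Real.sqrt 2) ^ (l * (l + 1) / 2)) :
    OBreakerWins T n := by
  have hs := sqrt2_le
  have hq : Real.sqrt 2 ≤ 2 - 2 * ε := by linarith
  have hend : ∀ h : List (Fin n × Fin n), Legal h → (∀ a, ¬ Free h.toFinset a) →
      Phi T l (2 - 2 * ε) h ≤ 2 * (2 * (n : ℝ)) ^ k → ¬ HasCopy T h.toFinset := by
    intro h hL hfree hP hc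
    have := copy_weight hT hq hk hL hfree hc
    linarith
  have hfr : ∃ a : Fin n × Fin n, Free (∅ : Finset (Fin n × Fin n)) a := by
    refine ⟨(⟨0, by omega⟩, ⟨1, by omega⟩), ?_, by simp, by simp⟩
    simp
  unfold OBreakerWins
  apply BWins.maker _ hfr
  intro a ha
  have h2 : insert a (∅ : Finset (Fin n × Fin n)) = [a].toFinset := by simp
  rw [h2]
  refine bwins_of_phi hT h0 h1 (by omega) hl hend _ [a] ?_ le_rfl ?_
  · have : Legal ([] : List (Fin n × Fin n)) := ⟨by simp, List.Pairwise.nil⟩
    exact legal_of_free this (by simpa using ha)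
  · refine (first_le T h0 h1 [] a).trans ?_
    have := phi_nil_le (n := n) T l (2 - 2 * ε)
    linarith

end Pool.Agent.helper11.OG
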