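import Pool.Agent.helper11.OG.Defs

/-! Auxiliary notions of the proof: degrees, early arcs, weights and the potential. -/

namespace Pool.Agent.helper11.OG

open Finset

/-- the arc lies inside the vertex set -/
def ins {n : ℕ} (S : Finset (Fin n)) (a : Fin n × Fin n) : Prop := a.1 ∈ S ∧ a.2 ∈ S

instance {n : ℕ} (S : Finset (Fin n)) (a : Fin n × Fin n) : Decidable (ins S a) := by
  unfold ins; infer_instance

/-- number of arcs of the history inside `S` at the vertex `v` (latest arc first) -/
def deg {n : ℕ} : List (Fin n × Fin n) → Finset (Fin n) → Fin n → ℕ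
  | [], _, _ => 0
  | a :: h, S, v => deg h S v + if ins S a ∧ (a.1 = v ∨ a.2 = v) then 1 else 0

/-- an arc is early if both ends have small degree inside `S` -/
def early {n : ℕ} (l : ℕ) (h : List (Fin n × Fin n)) (S : Finset (Fin n)) (a : Fin n × Fin n) :
    Prop := deg h S a.1 < l ∧ deg h S a.2 < l

instance {n : ℕ} (l : ℕ) (h : List (Fin n × Fin n)) (S : Finset (Fin n)) (a : Fin n × Fin n) :
    Decidable (early l h S a) := by
  unfold early; infer_instance

/-- number of early arcs inside `S` -/
def nE {n : ℕ} (l : ℕ) : List (Fin n × Fin n) → Finset (Fin n) → ℕ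
  | [], _ => 0
  | a :: h, S => nE l h S + if ins S a ∧ early l h S a then 1 else 0

/-- number of arcs inside `S` -/
def nA {n : ℕ} : List (Fin n × Fin n) → Finset (Fin n) → ℕ
  | [], _ => 0
  | a :: h, S => nA h S + if ins S a then 1 else 0

/-- the multiplier -/
noncomputable def M {n : ℕ} (l : ℕ) (q : ℝ) : List (Fin n × Fin n) → Finset (Fin n) → ℝ
  | [], _ => 1
  | a :: h, S => M l q h S *
      (if ins S a then (if early l h S a then q else Real.sqrt 2) else 1)

/-- the arcs of a history use different edges -/
def Legal {n : ℕ} (h : List (Fin n × Fin n)) : Prop :=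
  (∀ a ∈ h, a.1 ≠ a.2) ∧ h.Pairwise fun a b => a ≠ b ∧ a ≠ b.swap

/-- image of a partial placement -/
def im {n k : ℕ} (o : Fin k → Option (Fin n)) : Finset (Fin n) :=
  univ.filter fun v => ∃ i, o i = some v

/-- the arc has the right direction for the placement -/
def Right {n k : ℕ} (T : Fin k → Fin k → Prop) (o : Fin k → Option (Fin n)) (a : Fin n × Fin n) :
    Prop := ∃ i j, o i = some a.1 ∧ o j = some a.2 ∧ T i j

/-- the placement is injective -/
def Inj {n k : ℕ} (o : Fin k → Option (Fin n)) : Prop :=
  ∀ i j v, o i = some v → o j = some v → i = j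

/-- the placement is injective and consistent with the history -/
def Alive {n k : ℕ} (T : Fin k → Fin k → Prop) (h : List (Fin n × Fin n))
    (o : Fin k → Option (Fin n)) : Prop := Inj o ∧ ∀ a ∈ h, ins (im o) a → Right T o a

/-- initial weight -/
noncomputable def w0 {n k : ℕ} (o : Fin k → Option (Fin n)) : ℝ :=
  ∏ i, if o i = none then (n : ℝ) else 1

open scoped Classical in
/-- weight -/
noncomputable def w {n k : ℕ} (T : Fin k → Fin k → Prop) (l : ℕ) (q : ℝ)
    (h : List (Fin n × Fin n)) (o : Fin k → Option (Fin n)) : ℝ :=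
  if Alive T h o then w0 o * M l q h (im o) else 0

/-- total weight -/
noncomputable def Phi {n k : ℕ} (T : Fin k → Fin k → Prop) (l : ℕ) (q : ℝ)
    (h : List (Fin n × Fin n)) : ℝ := ∑ o : Fin k → Option (Fin n), w T l q h o

end Pool.Agent.helper11.OG
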