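import Pool.Agent.helper11.OG.Basic

/-! One round of the game. -/

namespace Pool.Agent.helper11.OG

open Finset

variable {n k : ℕ}

open scoped Classical in
/-- the score of an arc for a placement -/
noncomputable def sc (T : Fin k → Fin k → Prop) (l : ℕ) (ε : ℝ) (h : List (Fin n × Fin n))
    (o : Fin k → Option (Fin n)) (a : Fin n × Fin n) : ℝ :=
  if ins (im o) a then
    (if Right T o a then 1 else -1) * (if early l h (im o) a then 1 - ε else 1 / 2)
  else 0

/-- the total score of an arc -/
noncomputable def SS (T : Fin k → Fin k → Prop) (l : ℕ) (ε : ℝ) (h : List (Fin n × Fin n))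
    (a : Fin n × Fin n) : ℝ := ∑ o : Fin k → Option (Fin n), sc T l ε h o a * w T l (2 - 2 * ε) h o

/-- the correction term -/
noncomputable def cr (l : ℕ) (ε : ℝ) (h : List (Fin n × Fin n))
    (o : Fin k → Option (Fin n)) (e f : Fin n × Fin n) : ℝ :=
  if ins (im o) e ∧ ins (im o) f then
    (if early l h (im o) e ∨ early l h (im o) f then 3 else 0)
  else if ins (im o) e ∨ ins (im o) f then -ε else 0

theorem ins_swap {S : Finset (Fin n)} {a : Fin n × Fin n} : ins S a.swap ↔ ins S a :=
  ⟨fun h => ⟨h.2, h.1⟩, fun h => ⟨h.2, h.1⟩⟩

theorem early_swap {l : ℕ} {h : List (Fin n × Fin n)} {S : Finset (Fin n)}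
    {a : Fin n × Fin n} : early l h S a.swap ↔ early l h S a :=
  ⟨fun h => ⟨h.2, h.1⟩, fun h => ⟨h.2, h.1⟩⟩

theorem right_swap {T : Fin k → Fin k → Prop} (hT : IsTournament T)
    {o : Fin k → Option (Fin n)} (ho : Inj o) {a : Fin n × Fin n} (ha : a.1 ≠ a.2)
    (hi : ins (im o) a) : Right T o a.swap ↔ ¬ Right T o a := by
  obtain ⟨i, h1⟩ := mem_im.1 hi.1
  obtain ⟨j, h2⟩ := mem_im.1 hi.2
  have hij : i ≠ j := by
    rintro rfl
    rw [h1, Option.some.injEq] at h2
    exact ha h2
  have e1 : Right T o a ↔ T i j := by
    constructor
    · rintro ⟨i', j', h1', h2', h3⟩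
      rw [ho _ _ _ h1 h1', ho _ _ _ h2 h2']
      exact h3
    · intro h3
      exact ⟨i, j, h1, h2, h3⟩
  have e2 : Right T o a.swap ↔ T j i := by
    constructor
    · rintro ⟨i', j', h1', h2', h3⟩
      rw [ho _ _ _ h2 h1', ho _ _ _ h1 h2']
      exact h3
    · intro h3
      exact ⟨j, i, h2, h1, h3⟩
  rw [e1, e2]
  exact hT.2 j i hij.symm

theorem SS_swap {T : Fin k → Fin k → Prop} (hT : IsTournament T) (l : ℕ) (ε : ℝ)
    (h : List (Fin n × Fin n)) {a : Fin n × Fin n} (ha : a.1 ≠ a.2) :
    SS T l ε h a.swap = - SS T l ε h a := by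
  unfold SS
  rw [← sum_neg_distrib]
  apply sum_congr rfl
  intro o _
  by_cases ho : Alive T h o
  · rw [← neg_mul]
    congr 1
    unfold sc
    by_cases hi : ins (im o) a
    · rw [if_pos hi, if_pos (ins_swap.2 hi)]
      have h1 : (if early l h (im o) a.swap then 1 - ε else 1 / 2) =
          (if early l h (im o) a then 1 - ε else 1 / 2) := by
        by_cases he : early l h (im o) a
        · rw [if_pos he, if_pos (early_swap.2 he)]
        · rw [if_neg he, if_neg (fun u => he (early_swap.1 u))]
      rw [h1]
      by_cases hr : Right T o a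
      · rw [if_pos hr, if_neg (fun u => (right_swap hT ho.1 ha hi).1 u hr)]
        ring
      · rw [if_neg hr, if_pos ((right_swap hT ho.1 ha hi).2 hr)]
        ring
    · rw [if_neg hi, if_neg (fun u => hi (ins_swap.1 u)), neg_zero]
  · have h5 : w T l (2 - 2 * ε) h o = 0 := by
      unfold w
      rw [if_neg ho]
    rw [h5]
    ring

theorem w_cons_out {T : Fin k → Fin k → Prop} {l : ℕ} {q : ℝ} {h : List (Fin n × Fin n)}
    {o : Fin k → Option (Fin n)} {a : Fin n × Fin n} (hi : ¬ ins (im o) a) :
    w T l q (a :: h) o = w T l q h o := by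
  have h1 : Alive T (a :: h) o ↔ Alive T h o := by
    constructor
    · rintro ⟨h1, h2⟩
      exact ⟨h1, fun b hb => h2 b (List.mem_cons_of_mem a hb)⟩
    · rintro ⟨h1, h2⟩
      refine ⟨h1, fun b hb hb2 => ?_⟩
      rcases List.mem_cons.1 hb with rfl | hb
      · exact absurd hb2 hi
      · exact h2 b hb hb2
  unfold w
  by_cases ho : Alive T h o
  · rw [if_pos ho, if_pos (h1.2 ho), M_cons_out hi]
  · rw [if_neg ho, if_neg (fun u => ho (h1.1 u))]

theorem w_cons_wrong {T : Fin k → Fin k → Prop} {l : ℕ} {q : ℝ} {h : List (Fin n × Fin n)}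
    {o : Fin k → Option (Fin n)} {a : Fin n × Fin n} (hi : ins (im o) a)
    (hr : ¬ Right T o a) : w T l q (a :: h) o = 0 := by
  unfold w
  rw [if_neg]
  rintro ⟨_, h2⟩
  exact hr (h2 a List.mem_cons_self hi)

theorem w_cons_right {T : Fin k → Fin k → Prop} {l : ℕ} {q : ℝ} {h : List (Fin n × Fin n)}
    {o : Fin k → Option (Fin n)} {a : Fin n × Fin n} (hi : ins (im o) a)
    (hr : Right T o a) : w T l q (a :: h) o =
      w T l q h o * (if early l h (im o) a then q else Real.sqrt 2) := by
  have h1 : Alive T (a :: h) o ↔ Alive T h o := by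
    constructor
    · rintro ⟨h1, h2⟩
      exact ⟨h1, fun b hb => h2 b (List.mem_cons_of_mem a hb)⟩
    · rintro ⟨h1, h2⟩
      refine ⟨h1, fun b hb hb2 => ?_⟩
      rcases List.mem_cons.1 hb with rfl | hb
      · exact hr
      · exact h2 b hb hb2
  unfold w
  by_cases ho : Alive T h o
  · rw [if_pos ho, if_pos (h1.2 ho), M_cons_in hi]
    ring
  · rw [if_neg ho, if_neg (fun u => ho (h1.1 u)), zero_mul]

theorem sqrt2_le : Real.sqrt 2 ≤ 1.42 := by
  rw [Real.sqrt_le_left (by norm_num)]
  norm_num

/-- One arc: the weight changes at most as the score says. -/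
theorem obj_one {T : Fin k → Fin k → Prop} {l : ℕ} {ε : ℝ} (h1 : ε ≤ 1 / 20)
    (h : List (Fin n × Fin n)) (o : Fin k → Option (Fin n)) (a : Fin n × Fin n) :
    w T l (2 - 2 * ε) (a :: h) o ≤ w T l (2 - 2 * ε) h o *
      (1 + sc T l ε h o a + if ins (im o) a then -ε else 0) := by
  have hw := w_nonneg (T := T) (l := l) (q := 2 - 2 * ε) (by linarith) h o
  have hs := sqrt2_le
  by_cases hi : ins (im o) a
  · by_cases hr : Right T o a
    · rw [w_cons_right hi hr]
      apply mul_le_mul_of_nonneg_left _ hw
      unfold sc
      rw [if_pos hi, if_pos hr, if_pos hi]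
      split_ifs
      · linarith
      · linarith
    · rw [w_cons_wrong hi hr]
      apply mul_nonneg hw
      unfold sc
      rw [if_pos hi, if_neg hr, if_pos hi]
      split_ifs
      · linarith
      · linarith
  · rw [w_cons_out hi]
    unfold sc
    rw [if_neg hi, if_neg hi]
    linarith

/-- Two arcs: the weight changes at most as the scores and the correction term say. -/
theorem obj_two {T : Fin k → Fin k → Prop} {l : ℕ} {ε : ℝ} (h0 : 0 ≤ ε) (h1 : ε ≤ 1 / 20)
    (h : List (Fin n × Fin n)) (o : Fin k → Option (Fin n)) (e f : Fin n × Fin n) :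
    w T l (2 - 2 * ε) (e :: f :: h) o ≤ w T l (2 - 2 * ε) h o *
      (1 + sc T l ε h o e + sc T l ε h o f + cr l ε h o e f) := by
  have hw := w_nonneg (T := T) (l := l) (q := 2 - 2 * ε) (by linarith) h o
  have hs := sqrt2_le
  have hs0 : (0 : ℝ) < Real.sqrt 2 := by positivity
  have hs2 : Real.sqrt 2 * Real.sqrt 2 = 2 := Real.mul_self_sqrt (by norm_num)
  by_cases hf : ins (im o) f
  · by_cases he : ins (im o) e
    · -- both inside
      have hcr : cr l ε h o e f =
          (if early l h (im o) e ∨ early l h (im o) f then 3 else 0) := by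
        unfold cr
        rw [if_pos ⟨he, hf⟩]
      have hsc : ∀ a, ins (im o) a → Right T o a → sc T l ε h o a =
          (if early l h (im o) a then 1 - ε else 1 / 2) := by
        intro a ha hr
        unfold sc
        rw [if_pos ha, if_pos hr, one_mul]
      have hsc' : ∀ a, ins (im o) a → ¬ Right T o a → sc T l ε h o a =
          - (if early l h (im o) a then 1 - ε else 1 / 2) := by
        intro a ha hr
        unfold sc
        rw [if_pos ha, if_neg hr]
        ring
      by_cases hrf : Right T o f
      · by_cases hre : Right T o e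
        · rw [w_cons_right he hre, w_cons_right hf hrf, mul_assoc]
          apply mul_le_mul_of_nonneg_left _ hw
          rw [hcr, hsc e he hre, hsc f hf hrf]
          have h3 : (if early l (f :: h) (im o) e then 2 - 2 * ε else Real.sqrt 2) ≤
              (if early l h (im o) e then 2 - 2 * ε else Real.sqrt 2) := by
            by_cases h4 : early l (f :: h) (im o) e
            · rw [if_pos h4, if_pos (early_cons h4)]
            · rw [if_neg h4]
              split_ifs
              · linarith
              · exact le_rfl
          by_cases h4 : early l h (im o) e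
          · rw [if_pos h4] at h3
            rw [if_pos (Or.inl h4), if_pos h4]
            by_cases h5 : early l h (im o) f
            · rw [if_pos h5, if_pos h5]
              nlinarith
            · rw [if_neg h5, if_neg h5]
              nlinarith
          · rw [if_neg h4] at h3
            by_cases h5 : early l h (im o) f
            · rw [if_pos (Or.inr h5), if_neg h4, if_pos h5, if_pos h5]
              nlinarith
            · rw [if_neg (not_or.2 ⟨h4, h5⟩), if_neg h4, if_neg h5, if_neg h5]
              nlinarith
        · rw [w_cons_wrong he hre]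
          apply mul_nonneg hw
          rw [hcr, hsc' e he hre, hsc f hf hrf]
          by_cases h4 : early l h (im o) e
          · rw [if_pos (Or.inl h4), if_pos h4]
            split_ifs <;> linarith
          · rw [if_neg h4]
            by_cases h5 : early l h (im o) f
            · rw [if_pos (Or.inr h5), if_pos h5]
              linarith
            · rw [if_neg (not_or.2 ⟨h4, h5⟩), if_neg h5]
              linarith
      · have hz : w T l (2 - 2 * ε) (e :: f :: h) o = 0 := by
          unfold w
          rw [if_neg]
          rintro ⟨_, h2⟩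
          exact hrf (h2 f (by simp) hf)
        rw [hz]
        apply mul_nonneg hw
        rw [hcr, hsc' f hf hrf]
        have h6 : - (if early l h (im o) e then 1 - ε else 1 / 2) ≤ sc T l ε h o e := by
          by_cases hre : Right T o e
          · rw [hsc e he hre]
            split_ifs <;> linarith
          · rw [hsc' e he hre]
        by_cases h4 : early l h (im o) e
        · rw [if_pos h4] at h6
          rw [if_pos (Or.inl h4)]
          split_ifs <;> linarith
        · rw [if_neg h4] at h6
          by_cases h5 : early l h (im o) f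
          · rw [if_pos (Or.inr h5), if_pos h5]
            linarith
          · rw [if_neg (not_or.2 ⟨h4, h5⟩), if_neg h5]
            linarith
    · -- only f inside
      rw [w_cons_out he]
      have h3 := obj_one (T := T) (l := l) h1 h o f
      have hcr : cr l ε h o e f = -ε := by
        unfold cr
        rw [if_neg (fun u => he u.1), if_pos (Or.inr hf)]
      have hse : sc T l ε h o e = 0 := by
        unfold sc
        rw [if_neg he]
      rw [hcr, hse, add_zero]
      rwa [if_pos hf] at h3
  · -- f outside
    by_cases he : ins (im o) e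
    · have hcr : cr l ε h o e f = -ε := by
        unfold cr
        rw [if_neg (fun u => hf u.2), if_pos (Or.inl he)]
      have hsf : sc T l ε h o f = 0 := by
        unfold sc
        rw [if_neg hf]
      have h3 : w T l (2 - 2 * ε) (e :: f :: h) o = w T l (2 - 2 * ε) (e :: h) o := by
        by_cases hre : Right T o e
        · rw [w_cons_right he hre, w_cons_right he hre, w_cons_out hf]
          have h4 : early l (f :: h) (im o) e ↔ early l h (im o) e := by
            unfold early
            rw [deg_cons_out (fun u => hf u.1), deg_cons_out (fun u => hf u.1)]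
          by_cases h5 : early l h (im o) e
          · rw [if_pos h5, if_pos (h4.2 h5)]
          · rw [if_neg h5, if_neg (fun u => h5 (h4.1 u))]
        · rw [w_cons_wrong he hre, w_cons_wrong he hre]
      have h4 := obj_one (T := T) (l := l) h1 h o e
      rw [h3, hcr, hsf, add_zero]
      rwa [if_pos he] at h4
    · have hcr : cr l ε h o e f = 0 := by
        unfold cr
        rw [if_neg (fun u => hf u.2), if_neg (fun u => u.elim he hf)]
      have hsf : sc T l ε h o f = 0 := by
        unfold sc
        rw [if_neg hf]
      have hse : sc T l ε h o e = 0 := by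
        unfold sc
        rw [if_neg he]
      rw [w_cons_out he, w_cons_out hf, hcr, hsf, hse]
      linarith

end Pool.Agent.helper11.OG
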